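import Pool.Agent.Q215.MB.Stm

/-!
# Project MB (helper215), job STEPR (adapted from the file of helper214 for `S_step`)
-/

set_option autoImplicit false

open Set Topology Filter

namespace Pool.Agent.Q91.MB.Stepr

open Pool.Agent.Q215.WR (Two Lim) 
open Pool.Agent.Q215.MB

lemma two_mono {A B : Set ℝ} (h : A ⊆ B) {x : ℝ} (hx : Two A x) : Two B x := by
  intro ε hε
  obtain ⟨⟨z, hz, h1⟩, w, hw, h2⟩ := hx ε hε
  exact ⟨⟨z, h hz, h1⟩, w, h hw, h2⟩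

/-- good pairs -/
def Good (H : Set ℝ) (p : ℕ × ℤ) : Prop :=
  (∀ h ∈ H, h * 2 ^ p.1 < p.2 - 1 ∨ (p.2 : ℝ) + 2 < h * 2 ^ p.1) ∧
    (p.1 = 0 ∨ ∃ h ∈ H, (p.2 : ℝ) - 5 ≤ h * 2 ^ p.1 ∧ h * 2 ^ p.1 ≤ p.2 + 6)

lemma exists_pow {η : ℝ} (hη : 0 < η) (c : ℝ) : ∃ n0 : ℕ, ∀ n, n0 ≤ n → c < η * 2 ^ n := by
  obtain ⟨n0, h⟩ := pow_unbounded_of_one_lt (c / η) (show (1 : ℝ) < 2 by norm_num)
  refine ⟨n0, fun n hn => ?_⟩
  have h1 : (2 : ℝ) ^ n0 ≤ 2 ^ n := pow_le_pow_right₀ (by norm_num) hn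
  rw [div_lt_iff₀ hη] at h
  nlinarith

lemma pos_dist {H : Set ℝ} (hHc : IsClosed H) {x : ℝ} (hxH : x ∉ H) :
    ∃ δ : ℝ, 0 < δ ∧ ∀ h ∈ H, δ ≤ |h - x| := by
  obtain ⟨δ, hδ, hb⟩ := Metric.isOpen_iff.1 hHc.isOpen_compl x hxH
  refine ⟨δ, hδ, fun h hh => ?_⟩
  by_contra hcon
  exact hb (show h ∈ Metric.ball x δ by
    rw [Metric.mem_ball, Real.dist_eq]; exact not_le.1 hcon) hh

/-- every point outside `H` is in a good cell -/
lemma exists_good {H : Set ℝ} (hHc : IsClosed H) {y : ℝ} (hy : y ∉ H) :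
    ∃ p : ℕ × ℤ, Good H p ∧ (p.2 : ℝ) ≤ y * 2 ^ p.1 ∧ y * 2 ^ p.1 < p.2 + 1 := by
  classical
  have hex : ∃ n : ℕ, ∀ h ∈ H, h * 2 ^ n < (⌊y * 2 ^ n⌋ : ℝ) - 1 ∨
      (⌊y * 2 ^ n⌋ : ℝ) + 2 < h * 2 ^ n := by
    obtain ⟨δ, hδ, hH⟩ := pos_dist hHc hy
    obtain ⟨n0, hn0⟩ := exists_pow hδ 3
    refine ⟨n0, fun h hh => ?_⟩
    have h1 := hn0 n0 le_rfl
    have h2 : (0 : ℝ) < 2 ^ n0 := by positivity
    have h3 := hH h hh
    have f1 := Int.floor_le (y * 2 ^ n0)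
    have f2 := Int.lt_floor_add_one (y * 2 ^ n0)
    have h4 : 3 < |h * 2 ^ n0 - y * 2 ^ n0| := by
      rw [← sub_mul, abs_mul, abs_of_pos h2]
      nlinarith
    rcases lt_abs.1 h4 with h5 | h5
    · right
      linarith
    · left
      linarith
  have hspec := Nat.find_spec hex
  have hmin := fun m (hm : m < Nat.find hex) => Nat.find_min hex hm
  set n := Nat.find hex with hn
  refine ⟨(n, ⌊y * 2 ^ n⌋), ⟨hspec, ?_⟩, Int.floor_le _, Int.lt_floor_add_one _⟩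
  rcases Nat.eq_zero_or_pos n with h0 | h0
  · exact Or.inl h0
  right
  obtain ⟨m, hm⟩ : ∃ m, n = m + 1 := ⟨n - 1, by omega⟩
  have h1 := hmin m (by omega)
  push Not at h1
  obtain ⟨h, hh, h2, h3⟩ := h1
  have g1 := Int.floor_le (y * 2 ^ m)
  have g2 := Int.lt_floor_add_one (y * 2 ^ m)
  have g3 := Int.floor_le (y * 2 ^ n)
  have g4 := Int.lt_floor_add_one (y * 2 ^ n)
  have e1 : y * 2 ^ n = 2 * (y * 2 ^ m) := by rw [hm, pow_succ]; ring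
  have e2 : h * 2 ^ n = 2 * (h * 2 ^ m) := by rw [hm, pow_succ]; ring
  refine ⟨h, hh, ?_, ?_⟩
  · show (⌊y * 2 ^ n⌋ : ℝ) - 5 ≤ h * 2 ^ n
    linarith
  · show h * 2 ^ n ≤ (⌊y * 2 ^ n⌋ : ℝ) + 6
    linarith

/-- only finitely many good cells near a point outside `H` -/
lemma loc_fin {H : Set ℝ} {x δ : ℝ} (hδ : 0 < δ) (hx : ∀ h ∈ H, δ ≤ |h - x|) :
    {i : ℕ × ℤ | Good H i ∧ ∃ z : ℝ, |z - x| < δ / 2 ∧ (i.2 : ℝ) - 1 / 4 < z * 2 ^ i.1 ∧
      z * 2 ^ i.1 < i.2 + 5 / 4}.Finite := by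
  obtain ⟨n0, hn0⟩ := exists_pow hδ 13
  set B : ℤ := ⌈2 ^ n0 * (|x| + δ) + 2⌉ with hB
  refine Set.Finite.subset ((Finset.range (n0 + 1) ×ˢ Finset.Icc (-B) B).finite_toSet) ?_
  rintro ⟨n, k⟩ ⟨⟨-, hg⟩, z, hz, hz1, hz2⟩
  have hz1' : (k : ℝ) - 1 / 4 < z * 2 ^ n := hz1
  have hz2' : z * 2 ^ n < k + 5 / 4 := hz2
  have h2 : (0 : ℝ) < 2 ^ n := by positivity
  have hnn : n ≤ n0 := by
    by_contra hcon
    have hn := hn0 n (by omega)
    rcases hg with hg | ⟨h, hh, hg1, hg2⟩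
    · exact hcon (by simpa using (show n ≤ n0 by simp only at hg; omega))
    · have hg1' : (k : ℝ) - 5 ≤ h * 2 ^ n := hg1
      have hg2' : h * 2 ^ n ≤ k + 6 := hg2
      have h3 : |h - z| * 2 ^ n ≤ 25 / 4 := by
        have e : |h - z| * 2 ^ n = |h * 2 ^ n - z * 2 ^ n| := by
          rw [← sub_mul, abs_mul, abs_of_pos h2]
        rw [e, abs_le]
        constructor <;> linarith
      have h4 := hx h hh
      have h5 : |h - x| ≤ |h - z| + |z - x| := abs_sub_le _ _ _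
      have h6 : δ / 2 < |h - z| := by linarith
      nlinarith
  have h3 : (2 : ℝ) ^ n ≤ 2 ^ n0 := pow_le_pow_right₀ (by norm_num) hnn
  have hzx : |z| ≤ |x| + δ := by
    have : |z| ≤ |z - x| + |x| := by
      have := abs_add_le (z - x) x
      rwa [sub_add_cancel] at this
    linarith
  have hzb : |z * 2 ^ n| ≤ 2 ^ n0 * (|x| + δ) := by
    rw [abs_mul, abs_of_pos h2, mul_comm]
    exact mul_le_mul h3 hzx (abs_nonneg _) (by positivity)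
  have hB' := Int.le_ceil (2 ^ n0 * (|x| + δ) + 2)
  rw [← hB] at hB'
  obtain ⟨b1, b2⟩ := abs_le.1 hzb
  simp only [Finset.coe_product, Finset.coe_range, Finset.coe_Icc, mem_prod, mem_Iio, mem_Icc]
  refine ⟨by omega, ?_, ?_⟩
  · have : (-B : ℝ) ≤ k := by linarith
    exact_mod_cast this
  · have : (k : ℝ) ≤ B := by linarith
    exact_mod_cast this

lemma core_of_Pc {l : ℝ → ℕ} {j i : ℕ} {P : Set ℝ} (h : Pc l j i P) : Core l i P := by
  cases j with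
  | zero => exact h
  | succ j => exact h.1

theorem t_stepr : S_stepr := by
  classical
  intro l i j N' U V A H hHc hVH hHU
  -- the intervals
  set lo : ℕ × ℤ → ℝ := fun p => ((p.2 : ℝ) - 1 / 4) / 2 ^ p.1 with hlo
  set hi : ℕ × ℤ → ℝ := fun p => ((p.2 : ℝ) + 5 / 4) / 2 ^ p.1 with hhi
  have hmemJ : ∀ (p : ℕ × ℤ) (z : ℝ), z ∈ Ioo (lo p) (hi p) ↔
      (p.2 : ℝ) - 1 / 4 < z * 2 ^ p.1 ∧ z * 2 ^ p.1 < p.2 + 5 / 4 := by
    intro p z
    have h2 : (0 : ℝ) < 2 ^ p.1 := by positivity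
    constructor
    · rintro ⟨h3, h4⟩
      exact ⟨(div_lt_iff₀ h2).1 h3, (lt_div_iff₀ h2).1 h4⟩
    · rintro ⟨h3, h4⟩
      exact ⟨(div_lt_iff₀ h2).2 h3, (lt_div_iff₀ h2).2 h4⟩
  set G : ℕ × ℤ → Prop := fun p => Good H p ∧ ((U \ V) ∩ Ioo (lo p) (hi p)).Nonempty with hG
  have hex : ∀ p : ℕ × ℤ, ∃ Q M : Set ℝ, G p → Q ⊆ (U \ V) ∩ Ioo (lo p) (hi p) ∧
      Pc l j (i + 1) Q ∧ (∀ x ∈ Q, x ∉ N') ∧ IsCompact Q ∧ Q.Nonempty ∧ (∀ x ∈ Q, i + 1 ≤ l x) ∧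
      M.Countable ∧ M ⊆ Q ∧ (∀ x ∈ M, l x = i + 1) ∧ (∀ x ∈ M, Two M x) ∧ Q ⊆ closure M := by
    intro p
    by_cases hp : G p
    · obtain ⟨Q, h1, h2, h3⟩ := A.piece _ _ hp.2
      obtain ⟨c1, c2, c3, M, m1, m2, m3, m4⟩ := core_of_Pc h2
      exact ⟨Q, M, fun _ => ⟨h1, h2, h3, c1, c2, c3, m1, m2, fun x hx => (m3 x hx).1,
        fun x hx => (m3 x hx).2, m4⟩⟩
    · exact ⟨∅, ∅, fun h => absurd h hp⟩
  choose Q M hQM using hex
  have hQs := fun p hp => (hQM p hp).1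
  have hQp := fun p hp => (hQM p hp).2.1
  have hQN := fun p hp => (hQM p hp).2.2.1
  have hQc := fun p hp => (hQM p hp).2.2.2.1
  have hQn := fun p hp => (hQM p hp).2.2.2.2.1
  have hQl := fun p hp => (hQM p hp).2.2.2.2.2.1
  have hMc := fun p hp => (hQM p hp).2.2.2.2.2.2.1
  have hMQ := fun p hp => (hQM p hp).2.2.2.2.2.2.2.1
  have hMl := fun p hp => (hQM p hp).2.2.2.2.2.2.2.2.1
  have hMt := fun p hp => (hQM p hp).2.2.2.2.2.2.2.2.2.1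
  have hQM' := fun p hp => (hQM p hp).2.2.2.2.2.2.2.2.2.2
  have hcell : ∀ p, G p → ∀ z ∈ Q p, (p.2 : ℝ) - 1 / 4 < z * 2 ^ p.1 ∧ z * 2 ^ p.1 < p.2 + 5 / 4 :=
    fun p hp z hz => (hmemJ p z).1 (hQs p hp hz).2
  have hnH : ∀ p, G p → ∀ z ∈ Q p, z ∉ H := by
    intro p hp z hz hzH
    obtain ⟨h3, h4⟩ := hcell p hp z hz
    rcases hp.1.1 z hzH with h5 | h5 <;> linarith
  have hMn : ∀ p, G p → (M p).Nonempty := by
    intro p hp
    rw [← closure_nonempty_iff]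
    exact (hQn p hp).mono (hQM' p hp)
  set F : Set ℝ := H ∪ ⋃ p : ℕ × ℤ, ⋃ _ : G p, Q p with hF
  set MM : Set ℝ := ⋃ p : ℕ × ℤ, ⋃ _ : G p, M p with hMM
  have hMM' : ∀ p : ℕ × ℤ, G p → M p ⊆ MM := fun p hp =>
    subset_iUnion₂ (s := fun p (_ : G p) => M p) p hp
  have hQF : ∀ p : ℕ × ℤ, G p → Q p ⊆ F \ H := fun p hp x hx =>
    ⟨Or.inr (mem_iUnion₂.2 ⟨p, hp, hx⟩), hnH p hp x hx⟩
  have hFH : ∀ x ∈ F \ H, ∃ p, G p ∧ x ∈ Q p := by
    rintro x ⟨hxF, hxH⟩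
    rcases hxF with hxF | hxF
    · exact absurd hxF hxH
    · obtain ⟨p, hp, hxi⟩ := mem_iUnion₂.1 hxF
      exact ⟨p, hp, hxi⟩
  -- good cells for the points of `U \ V` outside `H`
  have hcov : ∀ y ∈ U \ V, y ∉ H → ∃ p, G p ∧ (p.2 : ℝ) ≤ y * 2 ^ p.1 ∧ y * 2 ^ p.1 < p.2 + 1 := by
    intro y hy hyH
    obtain ⟨p, hp, h1, h2⟩ := exists_good hHc hyH
    exact ⟨p, ⟨hp, y, hy, (hmemJ p y).2 ⟨by linarith, by linarith⟩⟩, h1, h2⟩
  have htUV : ∀ x ∈ H, Two (U \ V) x := by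
    intro x hx
    by_cases hxV : x ∈ V
    · exact A.twoV x hxV
    · rcases hHU hx with h | h
      · exact absurd h hxV
      · exact A.twoU x ⟨h.2, hxV⟩ h.1
  have hlowH : ∀ y ∈ U \ V, l y ≤ i → y ∉ H := by
    intro y hy hly hyH
    rcases hHU hyH with h | h
    · exact hy.2 h
    · have : i + 1 ≤ l y := h.1
      omega
  -- points of `MM` near the points of `H`
  have hTwoH : ∀ x ∈ H, Two MM x := by
    intro x hx ε hε
    obtain ⟨⟨y0, hy0, hy01, hy02⟩, y0', hy0', hy01', hy02'⟩ := htUV x hx ε hε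
    constructor
    · obtain ⟨y1, ⟨hy1, hy11, hy12⟩, hly1⟩ := A.low (x - ε) x ⟨y0, hy0, hy01, hy02⟩
      have hyH : y1 ∉ H := hlowH y1 hy1 hly1
      have hcomp : IsCompact (H ∩ Icc y1 x) := isCompact_Icc.inter_left hHc
      have hne : (H ∩ Icc y1 x).Nonempty := ⟨x, hx, hy12.le, le_rfl⟩
      obtain ⟨u, ⟨huH, huy, hux⟩, hmin⟩ := hcomp.exists_isLeast hne
      have hyu : y1 < u := lt_of_le_of_ne huy fun h => hyH (h ▸ huH)
      obtain ⟨⟨y, hyU, hyu1, hyu2⟩, -⟩ := htUV u huH ((u - y1) / 4) (by linarith)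
      have hyH' : y ∉ H := by
        intro hyH'
        have := hmin ⟨hyH', (by linarith : y1 ≤ y), (by linarith : y ≤ x)⟩
        linarith
      obtain ⟨p, hp, hp1, hp2⟩ := hcov y hyU hyH'
      obtain ⟨z, hz⟩ := hMn p hp
      obtain ⟨c1, c2⟩ := hcell p hp z (hMQ p hp hz)
      have h2 : (0 : ℝ) < 2 ^ p.1 := by positivity
      have hu : (p.2 : ℝ) + 2 < u * 2 ^ p.1 := by
        rcases hp.1.1 u huH with h | h
        · have := mul_lt_mul_of_pos_right hyu2 h2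
          linarith
        · exact h
      refine ⟨z, hMM' p hp hz, ?_, ?_⟩
      · have h3 : (u - 9 / 4 * (u - y)) * 2 ^ p.1 < z * 2 ^ p.1 := by
          have h4 : 1 < (u - y) * 2 ^ p.1 := by
            rw [sub_mul]
            linarith
          have h5 : (u - 9 / 4 * (u - y)) * 2 ^ p.1 = y * 2 ^ p.1 - 5 / 4 * ((u - y) * 2 ^ p.1) := by
            ring
          rw [h5]
          linarith
        have h6 := lt_of_mul_lt_mul_right h3 h2.le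
        linarith
      · have h3 : z * 2 ^ p.1 < u * 2 ^ p.1 := by linarith
        have h6 := lt_of_mul_lt_mul_right h3 h2.le
        linarith
    · obtain ⟨y1, ⟨hy1, hy11, hy12⟩, hly1⟩ := A.low x (x + ε) ⟨y0', hy0', hy01', hy02'⟩
      have hyH : y1 ∉ H := hlowH y1 hy1 hly1
      have hcomp : IsCompact (H ∩ Icc x y1) := isCompact_Icc.inter_left hHc
      have hne : (H ∩ Icc x y1).Nonempty := ⟨x, hx, le_rfl, hy11.le⟩
      obtain ⟨u, ⟨huH, hux, huy⟩, hmax⟩ := hcomp.exists_isGreatest hne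
      have hyu : u < y1 := lt_of_le_of_ne huy fun h => hyH (h ▸ huH)
      obtain ⟨-, y, hyU, hyu1, hyu2⟩ := htUV u huH ((y1 - u) / 4) (by linarith)
      have hyH' : y ∉ H := by
        intro hyH'
        have := hmax ⟨hyH', (by linarith : x ≤ y), (by linarith : y ≤ y1)⟩
        linarith
      obtain ⟨p, hp, hp1, hp2⟩ := hcov y hyU hyH'
      obtain ⟨z, hz⟩ := hMn p hp
      obtain ⟨c1, c2⟩ := hcell p hp z (hMQ p hp hz)
      have h2 : (0 : ℝ) < 2 ^ p.1 := by positivity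
      have hu : u * 2 ^ p.1 < (p.2 : ℝ) - 1 := by
        rcases hp.1.1 u huH with h | h
        · exact h
        · have := mul_lt_mul_of_pos_right hyu1 h2
          linarith
      refine ⟨z, hMM' p hp hz, ?_, ?_⟩
      · have h3 : u * 2 ^ p.1 < z * 2 ^ p.1 := by linarith
        have h6 := lt_of_mul_lt_mul_right h3 h2.le
        linarith
      · have h3 : z * 2 ^ p.1 < (u + 9 / 4 * (y - u)) * 2 ^ p.1 := by
          have h4 : 1 < (y - u) * 2 ^ p.1 := by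
            rw [sub_mul]
            linarith
          have h5 : (u + 9 / 4 * (y - u)) * 2 ^ p.1 = y * 2 ^ p.1 + 5 / 4 * ((y - u) * 2 ^ p.1) := by
            ring
          rw [h5]
          linarith
        have h6 := lt_of_mul_lt_mul_right h3 h2.le
        linarith
  have hFc : IsClosed F := by
    refine isClosed_of_closure_subset ?_
    intro x hx
    by_cases hxH : x ∈ H
    · exact Or.inl hxH
    right
    rw [hF, closure_union, hHc.closure_eq] at hx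
    have hx' : x ∈ closure (⋃ p : ℕ × ℤ, ⋃ _ : G p, Q p) := hx.resolve_left hxH
    obtain ⟨δ, hδ, hδH⟩ := pos_dist hHc hxH
    have hfin := loc_fin hδ hδH
    set I : Set (ℕ × ℤ) := {p : ℕ × ℤ | G p ∧ ∃ z : ℝ, |z - x| < δ / 2 ∧
      (p.2 : ℝ) - 1 / 4 < z * 2 ^ p.1 ∧ z * 2 ^ p.1 < p.2 + 5 / 4} with hI
    have hfin' : I.Finite := hfin.subset fun p hp => ⟨hp.1.1, hp.2⟩
    have hcl : IsClosed (⋃ p ∈ I, Q p) :=
      hfin'.isClosed_biUnion fun p hp => (hQc p hp.1).isClosed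
    have hsub : x ∈ ⋃ p ∈ I, Q p := by
      rw [← hcl.closure_eq]
      rw [Metric.mem_closure_iff] at hx' ⊢
      intro ε hε
      obtain ⟨z, hz, hzε⟩ := hx' (min ε (δ / 2)) (lt_min hε (by linarith))
      obtain ⟨p, hp, hzi⟩ := mem_iUnion₂.1 hz
      refine ⟨z, mem_iUnion₂.2 ⟨p, ⟨hp, z, ?_, hcell p hp z hzi⟩, hzi⟩,
        hzε.trans_le (min_le_left _ _)⟩
      rw [abs_sub_comm, ← Real.dist_eq]
      exact hzε.trans_le (min_le_right _ _)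
    obtain ⟨p, hp, hxi⟩ := mem_iUnion₂.1 hsub
    exact mem_iUnion₂.2 ⟨p, hp.1, hxi⟩
  have hMF : MM ⊆ F \ H := by
    intro x hx
    obtain ⟨p, hp, hxi⟩ := mem_iUnion₂.1 hx
    exact hQF p hp (hMQ p hp hxi)
  have hMMl : ∀ x ∈ MM, l x = i + 1 := by
    intro x hx
    obtain ⟨p, hp, hxi⟩ := mem_iUnion₂.1 hx
    exact hMl p hp x hxi
  have hFM : F \ H ⊆ closure MM := by
    intro x hx
    obtain ⟨p, hp, hxi⟩ := hFH x hx
    exact closure_mono (hMM' p hp) (hQM' p hp hxi)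
  have hFN : ∀ x ∈ F \ H, x ∉ N' := by
    intro x hx
    obtain ⟨p, hp, hxi⟩ := hFH x hx
    exact hQN p hp x hxi
  have hunb : ∀ r : ℝ, (∃ x ∈ MM, r < x) ∧ ∃ x ∈ MM, x < r := by
    intro r
    constructor
    · obtain ⟨⟨x0, hx0, hx0r⟩, -⟩ := A.unb (r + 3)
      obtain ⟨y, ⟨hy, hy1, hy2⟩, hly⟩ := A.low (r + 3) (x0 + 1) ⟨x0, hx0, hx0r, by linarith⟩
      obtain ⟨p, hp, hp1, hp2⟩ := hcov y hy (hlowH y hy hly)
      obtain ⟨z, hz⟩ := hMn p hp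
      obtain ⟨c1, c2⟩ := hcell p hp z (hMQ p hp hz)
      have h2 : (1 : ℝ) ≤ 2 ^ p.1 := one_le_pow₀ (by norm_num)
      refine ⟨z, hMM' p hp hz, ?_⟩
      have h3 : (y - 5 / 4) * 2 ^ p.1 < z * 2 ^ p.1 := by
        have : (y - 5 / 4) * 2 ^ p.1 = y * 2 ^ p.1 - 5 / 4 * 2 ^ p.1 := by ring
        rw [this]
        linarith
      have h6 := lt_of_mul_lt_mul_right h3 (by positivity)
      linarith
    · obtain ⟨-, x0, hx0, hx0r⟩ := A.unb (r - 3)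
      obtain ⟨y, ⟨hy, hy1, hy2⟩, hly⟩ := A.low (x0 - 1) (r - 3) ⟨x0, hx0, by linarith, hx0r⟩
      obtain ⟨p, hp, hp1, hp2⟩ := hcov y hy (hlowH y hy hly)
      obtain ⟨z, hz⟩ := hMn p hp
      obtain ⟨c1, c2⟩ := hcell p hp z (hMQ p hp hz)
      have h2 : (1 : ℝ) ≤ 2 ^ p.1 := one_le_pow₀ (by norm_num)
      refine ⟨z, hMM' p hp hz, ?_⟩
      have h3 : z * 2 ^ p.1 < (y + 5 / 4) * 2 ^ p.1 := by
        have : (y + 5 / 4) * 2 ^ p.1 = y * 2 ^ p.1 + 5 / 4 * 2 ^ p.1 := by ring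
        rw [this]
        linarith
      have h6 := lt_of_mul_lt_mul_right h3 (by positivity)
      linarith
  refine ⟨F, MM, hFc, subset_union_left, ?_, ?_, hMF, hMMl, ?_, hTwoH, hFM, hFN, hunb, ?_⟩
  · refine union_subset hHU (iUnion₂_subset fun p hp x hx => Or.inr ⟨hQl p hp x hx, ?_⟩)
    exact (hQs p hp hx).1.1
  · exact countable_iUnion fun p => countable_iUnion fun hp => hMc p hp
  · intro x hx
    obtain ⟨p, hp, hxi⟩ := mem_iUnion₂.1 hx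
    exact two_mono (hMM' p hp) (hMt p hp x hxi)
  · rintro j' rfl
    have h1 : ∀ x ∈ F \ H, i + 2 ≤ l x → Two (F \ H) x := by
      intro x hx hlx
      obtain ⟨p, hp, hxi⟩ := hFH x hx
      exact two_mono (hQF p hp) ((hQp p hp).2.1 x hxi hlx)
    refine ⟨h1, ?_⟩
    intro V' hV'c hV'H
    have hsub : F \ H ⊆ F \ V' := diff_subset_diff_right hV'H
    -- a point of `F \ H` in every interval which meets `F \ V'`
    have hpt : ∀ u v : ℝ, ((F \ V') ∩ Ioo u v).Nonempty → ((F \ H) ∩ Ioo u v).Nonempty := by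
      rintro u v ⟨x, hx, hxu, hxv⟩
      by_cases hxH : x ∈ H
      · obtain ⟨-, z, hz, hz1, hz2⟩ := hTwoH x hxH (v - x) (by linarith)
        exact ⟨z, hMF hz, by linarith, by linarith⟩
      · exact ⟨x, ⟨hx.1, hxH⟩, hxu, hxv⟩
    refine ⟨hFc, hV'c, hV'H.trans subset_union_left, ?_, ?_, ?_, ?_, ?_⟩
    · intro x hx
      exact two_mono (hMF.trans hsub) (hTwoH x (hV'H hx))
    · intro x hx hlx
      by_cases hxH : x ∈ H
      · exact two_mono (hMF.trans hsub) (hTwoH x hxH)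
      · exact two_mono hsub (h1 x ⟨hx.1, hxH⟩ hlx)
    · intro u v huv
      obtain ⟨x, hx, hxuv⟩ := hpt u v huv
      obtain ⟨p, hp, hxi⟩ := hFH x hx
      obtain ⟨Q', hQ'1, hQ'2⟩ := (hQp p hp).2.2 u v ⟨x, hxi, hxuv⟩
      refine ⟨Q', fun z hz => ⟨hsub (hQF p hp (hQ'1 hz).1), (hQ'1 hz).2⟩, hQ'2, fun z hz => ?_⟩
      exact hQN p hp z (hQ'1 hz).1
    · intro u v huv
      obtain ⟨x, hx, hxuv⟩ := hpt u v huv
      obtain ⟨y, hy1, hy2⟩ := mem_closure_iff.1 (hFM hx) (Ioo u v) isOpen_Ioo hxuv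
      exact ⟨y, ⟨hsub (hMF hy2), hy1⟩, (hMMl y hy2).le⟩
    · intro r
      obtain ⟨⟨x, hx, hx1⟩, y, hy, hy1⟩ := hunb r
      exact ⟨⟨x, hsub (hMF hx), hx1⟩, y, hsub (hMF hy), hy1⟩

end Pool.Agent.Q91.MB.Stepr
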