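import Pool.Agent.Q215.MB.Stm

/-!
# Project MB (helper215), job TA: the basic structure
-/

set_option autoImplicit false

open Set Topology Filter

namespace Pool.Agent.Q91.MB.Ta

open Pool.Agent.Q215.WR (Two Lim) 
open Pool.Agent.Q215.MB

/-- the coding map -/
noncomputable def c (x : ℕ → Fin 3) : ℝ := ∑' k, ((x k : ℕ) : ℝ) / 4 ^ (k + 1)

lemma summable_bd : Summable (fun k : ℕ => (2 : ℝ) / 4 ^ (k + 1)) := by
  have h := (summable_geometric_of_lt_one (r := (1 / 4 : ℝ)) (by norm_num) (by norm_num)).mul_left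
    (1 / 2)
  refine h.congr fun k => ?_
  rw [one_div_pow, pow_succ]
  field_simp
  norm_num

lemma tsum_bd : (∑' k : ℕ, (2 : ℝ) / 4 ^ (k + 1)) = 2 / 3 := by
  have h : (fun k : ℕ => (2 : ℝ) / 4 ^ (k + 1)) = fun k : ℕ => (1 / 2) * (1 / 4 : ℝ) ^ k := by
    funext k
    rw [one_div_pow, pow_succ]
    field_simp
    norm_num
  rw [h, tsum_mul_left, tsum_geometric_of_lt_one (by norm_num) (by norm_num)]
  norm_num

lemma term_le (t : Fin 3) (k : ℕ) : ((t : ℕ) : ℝ) / 4 ^ (k + 1) ≤ 2 / 4 ^ (k + 1) := by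
  have h : ((t : ℕ) : ℝ) ≤ 2 := by
    have := t.isLt
    exact_mod_cast (by omega : (t : ℕ) ≤ 2)
  gcongr

lemma summable_c (x : ℕ → Fin 3) : Summable (fun k => ((x k : ℕ) : ℝ) / 4 ^ (k + 1)) :=
  Summable.of_nonneg_of_le (fun k => by positivity) (fun k => term_le (x k) k) summable_bd

lemma c_nonneg (x : ℕ → Fin 3) : 0 ≤ c x := tsum_nonneg fun k => by positivity

lemma c_le (x : ℕ → Fin 3) : c x ≤ 2 / 3 := by
  rw [← tsum_bd]
  exact (summable_c x).tsum_le_tsum (fun k => term_le (x k) k) summable_bd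

lemma c_shift (x : ℕ → Fin 3) : c x = ((x 0 : ℕ) : ℝ) / 4 + c (fun k => x (k + 1)) / 4 := by
  unfold c
  rw [(summable_c x).tsum_eq_zero_add, ← tsum_div_const]
  simp only [zero_add, pow_one]
  congr 2
  funext k
  rw [pow_succ 4 (k + 1), div_div]

lemma c_agree (k : ℕ) : ∀ x y : ℕ → Fin 3, (∀ m, m < k → x m = y m) →
    c x - c y = (c (fun m => x (m + k)) - c (fun m => y (m + k))) / 4 ^ k := by
  induction k with
  | zero => intro x y _; simp
  | succ k ih =>
    intro x y h
    have h1 := ih (fun m => x (m + 1)) (fun m => y (m + 1)) (fun m hm => h (m + 1) (by omega))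
    rw [c_shift x, c_shift y, h 0 (by omega)]
    have e : ∀ z : ℕ → Fin 3, (fun m => (fun m => z (m + 1)) (m + k)) = fun m => z (m + (k + 1)) := by
      intro z
      funext m
      show z (m + k + 1) = z (m + (k + 1))
      rw [add_assoc]
    rw [e x, e y] at h1
    rw [pow_succ, ← div_div, ← h1]
    ring

lemma c_close {x y : ℕ → Fin 3} {k : ℕ} (h : ∀ m, m < k → x m = y m) :
    |c x - c y| ≤ 1 / 4 ^ k := by
  rw [c_agree k x y h, abs_div, abs_of_pos (show (0 : ℝ) < 4 ^ k by positivity)]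
  gcongr
  rw [abs_le]
  have h1 := c_nonneg (fun m => x (m + k))
  have h2 := c_nonneg (fun m => y (m + k))
  have h3 := c_le (fun m => x (m + k))
  have h4 := c_le (fun m => y (m + k))
  constructor <;> linarith

lemma c_lt {x y : ℕ → Fin 3} {k : ℕ} (h : ∀ m, m < k → x m = y m) (hk : x k < y k) :
    c x < c y := by
  have h0 := c_agree k x y h
  have h1 := c_shift (fun m => x (m + k))
  have h2 := c_shift (fun m => y (m + k))
  simp only [zero_add] at h1 h2
  have h3 := c_le (fun m => x (m + 1 + k))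
  have h4 := c_nonneg (fun m => y (m + 1 + k))
  have h5 : ((x k : ℕ) : ℝ) + 1 ≤ ((y k : ℕ) : ℝ) := by
    have : (x k : ℕ) < (y k : ℕ) := hk
    exact_mod_cast this
  have h6 : c (fun m => x (m + k)) - c (fun m => y (m + k)) < 0 := by linarith
  have h7 : c x - c y < 0 := by
    rw [h0]
    exact div_neg_of_neg_of_pos h6 (by positivity)
  linarith

lemma c_inj : Function.Injective c := by
  classical
  intro x y hxy
  by_contra hne
  have hex : ∃ k, x k ≠ y k := by
    by_contra hcon
    push Not at hcon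
    exact hne (funext hcon)
  have h1 := Nat.find_spec hex
  have h2 : ∀ m, m < Nat.find hex → x m = y m := fun m hm => by
    have := Nat.find_min hex hm
    simpa using this
  rcases lt_or_gt_of_ne h1 with h3 | h3
  · exact absurd hxy (c_lt h2 h3).ne
  · exact absurd hxy (c_lt (fun m hm => (h2 m hm).symm) h3).ne'

lemma c_cont : Continuous c := by
  refine continuous_tsum (u := fun k : ℕ => (2 : ℝ) / 4 ^ (k + 1)) (fun k => ?_) summable_bd ?_
  · exact (continuous_of_discreteTopology
      (f := fun t : Fin 3 => ((t : ℕ) : ℝ) / 4 ^ (k + 1))).comp (continuous_apply k)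
  · intro k x
    rw [Real.norm_of_nonneg (by positivity)]
    exact term_le (x k) k

/-- small powers -/
lemma small {ε : ℝ} (hε : 0 < ε) : ∃ K : ℕ, ∀ k, K ≤ k → 1 / (4 : ℝ) ^ k < ε := by
  obtain ⟨K, hK⟩ := exists_pow_lt_of_lt_one hε (show (1 / 4 : ℝ) < 1 by norm_num)
  refine ⟨K, fun k hk => ?_⟩
  calc 1 / (4 : ℝ) ^ k = (1 / 4) ^ k := by rw [one_div_pow]
    _ ≤ (1 / 4) ^ K := pow_le_pow_of_le_one (by norm_num) (by norm_num) hk
    _ < ε := hK

/-- the column of a position -/
def col (n : ℕ) : ℕ := (Nat.unpair n).1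

lemma exists_col (r N : ℕ) : ∃ p, N ≤ p ∧ col p = r :=
  ⟨Nat.pair r N, Nat.right_le_pair r N, by simp [col]⟩

/-- almost all entries in the columns `2, …, i` are `1` -/
def G (i : ℕ) (x : ℕ → Fin 3) : Prop := ∃ K, ∀ n, K ≤ n → 2 ≤ col n → col n ≤ i → x n = 1

lemma G_one (x : ℕ → Fin 3) {i : ℕ} (hi : i ≤ 1) : G i x := ⟨0, fun n _ h1 h2 => by omega⟩

lemma G_anti {i i' : ℕ} (h : i ≤ i') {x : ℕ → Fin 3} (hx : G i' x) : G i x := by
  obtain ⟨K, hK⟩ := hx
  exact ⟨K, fun n hn h1 h2 => hK n hn h1 (h2.trans h)⟩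

open Classical in
/-- the level of a sequence -/
noncomputable def L (j : ℕ) (x : ℕ → Fin 3) : ℕ := Nat.findGreatest (fun i => G i x) (j + 1)

lemma L_le (j : ℕ) (x : ℕ → Fin 3) : L j x ≤ j + 1 := by
  classical
  unfold L
  exact Nat.findGreatest_le _

lemma le_L {j k : ℕ} (hk : k ≤ j + 1) (x : ℕ → Fin 3) : k ≤ L j x ↔ G k x := by
  classical
  constructor
  · intro h
    have h1 : G (L j x) x := Nat.findGreatest_spec (P := fun i => G i x) (m := 0) (Nat.zero_le _)
      (G_one x (by omega))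
    exact G_anti h h1
  · intro h
    exact Nat.le_findGreatest hk h

open Classical in
/-- the level function -/
noncomputable def lv (j : ℕ) (y : ℝ) : ℕ := if h : ∃ x, c x = y then L j h.choose else 0

lemma lv_c (j : ℕ) (x : ℕ → Fin 3) : lv j (c x) = L j x := by
  have h : ∃ x', c x' = c x := ⟨x, rfl⟩
  unfold lv
  rw [dif_pos h, c_inj h.choose_spec]

lemma lv_out (j : ℕ) {y : ℝ} (hy : y ∉ range c) : lv j y = 0 := by
  unfold lv
  rw [dif_neg]
  rintro ⟨x, hx⟩
  exact hy ⟨x, hx⟩

/-- the codes of a piece -/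
def Z (i : ℕ) (w : ℕ → Fin 3) (K : ℕ) : Set (ℕ → Fin 3) :=
  {x | (∀ p, p < K ∨ col p = 0 → x p = w p) ∧ ∀ p, K ≤ p → 2 ≤ col p → col p ≤ i → x p = 1}

lemma Z_closed (i : ℕ) (w : ℕ → Fin 3) (K : ℕ) : IsClosed (Z i w K) := by
  have h : ∀ (p : ℕ) (t : Fin 3), IsClosed {x : ℕ → Fin 3 | x p = t} := fun p t =>
    isClosed_eq (continuous_apply p) continuous_const
  have e : Z i w K = (⋂ p : ℕ, ⋂ _ : p < K ∨ col p = 0, {x : ℕ → Fin 3 | x p = w p}) ∩
      ⋂ p : ℕ, ⋂ _ : K ≤ p, ⋂ _ : 2 ≤ col p, ⋂ _ : col p ≤ i, {x : ℕ → Fin 3 | x p = 1} := by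
    ext x
    simp only [Z, mem_inter_iff, mem_iInter, mem_setOf_eq]
  rw [e]
  exact (isClosed_iInter fun p => isClosed_iInter fun _ => h p _).inter
    (isClosed_iInter fun p => isClosed_iInter fun _ => isClosed_iInter fun _ =>
      isClosed_iInter fun _ => h p _)

/-- the final values of the marked points -/
def dd (i : ℕ) (w : ℕ → Fin 3) (p : ℕ) : Fin 3 :=
  if col p = 0 then w p else if col p ≤ i then 1 else 0

/-- the codes of the marked points -/
def MX (i : ℕ) (w : ℕ → Fin 3) (K : ℕ) : Set (ℕ → Fin 3) :=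
  {x | x ∈ Z i w K ∧ ∃ K', ∀ p, K' ≤ p → x p = dd i w p}

lemma MX_countable (i : ℕ) (w : ℕ → Fin 3) (K : ℕ) : (MX i w K).Countable := by
  classical
  have h : (range fun q : (Σ n : ℕ, (Fin n → Fin 3)) => fun p : ℕ =>
      if h : p < q.1 then q.2 ⟨p, h⟩ else dd i w p).Countable := countable_range _
  refine h.mono ?_
  rintro x ⟨-, K', hK'⟩
  refine ⟨⟨K', fun t => x t⟩, ?_⟩
  funext p
  by_cases hp : p < K'
  · simp [hp]
  · simp only [hp, dif_neg, not_false_iff]
    exact (hK' p (not_lt.1 hp)).symm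

/-- changing a late free entry `1` -/
lemma two_aux {i : ℕ} {w : ℕ → Fin 3} {K : ℕ} {x : ℕ → Fin 3} (hx : x ∈ Z i w K) {p : ℕ}
    (hp : K ≤ p) (hc0 : col p ≠ 0) (hc : col p = 1 ∨ i < col p) (t : Fin 3) :
    Function.update x p t ∈ Z i w K := by
  classical
  constructor
  · intro q hq
    have hqp : q ≠ p := by
      rintro rfl
      rcases hq with hq | hq
      · omega
      · exact hc0 hq
    rw [Function.update_of_ne hqp]
    exact hx.1 q hq
  · intro q hq h1 h2
    have hqp : q ≠ p := by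
      rintro rfl
      rcases hc with hc | hc
      · omega
      · omega
    rw [Function.update_of_ne hqp]
    exact hx.2 q hq h1 h2

lemma upd_lt {x : ℕ → Fin 3} {p : ℕ} (hx : x p = 1) :
    c (Function.update x p 0) < c x ∧ c x < c (Function.update x p 2) := by
  classical
  constructor
  · refine c_lt (k := p) (fun m hm => Function.update_of_ne (by omega) _ _) ?_
    rw [Function.update_self, hx]
    decide
  · refine c_lt (k := p) (fun m hm => (Function.update_of_ne (by omega) _ _).symm) ?_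
    rw [Function.update_self, hx]
    decide

lemma upd_close (x : ℕ → Fin 3) (p : ℕ) (t : Fin 3) :
    |c (Function.update x p t) - c x| ≤ 1 / 4 ^ p :=
  c_close fun m hm => Function.update_of_ne (by omega) _ _

lemma core (j i : ℕ) (hi : 1 ≤ i) (hij : i ≤ j + 1) (w : ℕ → Fin 3) (K : ℕ) :
    Core (lv j) i (c '' Z i w K) := by
  classical
  refine ⟨(Z_closed i w K).isCompact.image c_cont, ?_, ?_, c '' MX i w K,
    (MX_countable i w K).image c, image_mono fun x hx => hx.1, ?_, ?_⟩
  · refine ⟨_, fun p => if p < K ∨ col p = 0 then w p else 1, ⟨?_, ?_⟩, rfl⟩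
    · intro p hp
      simp only [hp, if_true]
    · intro p hp h1 h2
      have : ¬ (p < K ∨ col p = 0) := by omega
      simp only [this, if_false]
  · rintro _ ⟨x, hx, rfl⟩
    rw [lv_c, le_L hij]
    exact ⟨K, hx.2⟩
  · rintro _ ⟨x, ⟨hx, K', hK'⟩, rfl⟩
    constructor
    · rw [lv_c]
      refine le_antisymm ?_ ((le_L hij x).2 ⟨K, hx.2⟩)
      by_contra hcon
      have h1 : i + 1 ≤ L j x := by omega
      have h2 : i + 1 ≤ j + 1 := h1.trans (L_le j x)
      obtain ⟨K'', hK''⟩ := (le_L h2 x).1 h1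
      obtain ⟨p, hp, hcp⟩ := exists_col (i + 1) (max K' K'')
      have h3 := hK'' p ((le_max_right _ _).trans hp) (by omega) (by omega)
      have h4 := hK' p ((le_max_left _ _).trans hp)
      have h5 : dd i w p = 0 := by
        unfold dd
        rw [if_neg (by omega), if_neg (by omega)]
      rw [h5, h3] at h4
      exact absurd h4 (by decide)
    · intro ε hε
      obtain ⟨N, hN⟩ := small hε
      obtain ⟨p, hp, hcp⟩ := exists_col 1 (max (max K K') N)
      have hpK : K ≤ p := ((le_max_left _ _).trans (le_max_left _ _)).trans hp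
      have hpK' : K' ≤ p := ((le_max_right _ _).trans (le_max_left _ _)).trans hp
      have hpN : N ≤ p := (le_max_right _ _).trans hp
      have hxp : x p = 1 := by
        rw [hK' p hpK']
        unfold dd
        rw [if_neg (by omega), if_pos (by omega)]
      have hmem : ∀ t : Fin 3, c (Function.update x p t) ∈ c '' MX i w K := by
        intro t
        refine ⟨_, ⟨two_aux hx hpK (by omega) (Or.inl hcp) t, p + 1, fun q hq => ?_⟩, rfl⟩
        rw [Function.update_of_ne (by omega)]
        exact hK' q (by omega)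
      obtain ⟨h1, h2⟩ := upd_lt hxp
      have h3 := (abs_le.1 (upd_close x p 0)).1
      have h4 := (abs_le.1 (upd_close x p 2)).2
      have h5 := hN p hpN
      exact ⟨⟨_, hmem 0, by linarith, h1⟩, _, hmem 2, h2, by linarith⟩
  · rintro _ ⟨x, hx, rfl⟩
    rw [Metric.mem_closure_iff]
    intro ε hε
    obtain ⟨N, hN⟩ := small hε
    set K1 := max K N with hK1
    refine ⟨_, ⟨fun p => if p < K1 then x p else dd i w p, ⟨⟨?_, ?_⟩, K1, ?_⟩, rfl⟩, ?_⟩
    · intro p hp
      by_cases h1 : p < K1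
      · simp only [h1, if_true]
        exact hx.1 p hp
      · simp only [h1, if_false]
        have h2 : ¬ p < K := fun h => h1 (h.trans_le (le_max_left _ _))
        have h3 : col p = 0 := hp.resolve_left h2
        unfold dd
        rw [if_pos h3]
    · intro p hp h1 h2
      by_cases h3 : p < K1
      · simp only [h3, if_true]
        exact hx.2 p hp h1 h2
      · simp only [h3, if_false]
        unfold dd
        rw [if_neg (by omega), if_pos h2]
    · intro p hp
      have : ¬ p < K1 := not_lt.2 hp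
      simp only [this, if_false]
    · rw [Real.dist_eq]
      refine (c_close (k := K1) fun m hm => ?_).trans_lt (hN K1 (le_max_right _ _))
      simp only [hm, if_true]

lemma piece (j : ℕ) : ∀ (m i : ℕ), 1 ≤ i → i + m = j + 1 → ∀ (w : ℕ → Fin 3) (K : ℕ),
    Pc (lv j) m i (c '' Z i w K) := by
  intro m
  induction m with
  | zero =>
    intro i hi hij w K
    exact core j i hi (by omega) w K
  | succ m ih =>
    intro i hi hij w K
    refine ⟨core j i hi (by omega) w K, ?_, ?_⟩
    · rintro _ ⟨x, hx, rfl⟩ hlx ε hε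
      rw [lv_c, le_L (by omega)] at hlx
      obtain ⟨K', hK'⟩ := hlx
      obtain ⟨N, hN⟩ := small hε
      obtain ⟨p, hp, hcp⟩ := exists_col (i + 1) (max (max K K') N)
      have hpK : K ≤ p := ((le_max_left _ _).trans (le_max_left _ _)).trans hp
      have hpK' : K' ≤ p := ((le_max_right _ _).trans (le_max_left _ _)).trans hp
      have hpN : N ≤ p := (le_max_right _ _).trans hp
      have hxp : x p = 1 := hK' p hpK' (by omega) (by omega)
      have hmem : ∀ t : Fin 3, c (Function.update x p t) ∈ c '' Z i w K := fun t =>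
        ⟨_, two_aux hx hpK (by omega) (Or.inr (by omega)) t, rfl⟩
      obtain ⟨h1, h2⟩ := upd_lt hxp
      have h3 := (abs_le.1 (upd_close x p 0)).1
      have h4 := (abs_le.1 (upd_close x p 2)).2
      have h5 := hN p hpN
      exact ⟨⟨_, hmem 0, by linarith, h1⟩, _, hmem 2, h2, by linarith⟩
    · rintro u v ⟨_, ⟨x, hx, rfl⟩, hxu, hxv⟩
      obtain ⟨N, hN⟩ := small (show 0 < min (c x - u) (v - c x) from
        lt_min (by linarith) (by linarith))
      set K1 := max K N with hK1
      refine ⟨c '' Z (i + 1) x K1, ?_, ih (i + 1) (by omega) (by omega) x K1⟩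
      rintro _ ⟨z, hz, rfl⟩
      have hcl : |c z - c x| < min (c x - u) (v - c x) :=
        (c_close (k := K1) fun m hm => hz.1 m (Or.inl hm)).trans_lt (hN K1 (le_max_right _ _))
      obtain ⟨h1, h2⟩ := abs_lt.1 hcl
      have h3 := min_le_left (c x - u) (v - c x)
      have h4 := min_le_right (c x - u) (v - c x)
      refine ⟨⟨z, ⟨?_, ?_⟩, rfl⟩, by linarith, by linarith⟩
      · intro p hp
        rw [← hx.1 p hp]
        refine hz.1 p ?_
        rcases hp with hp | hp
        · exact Or.inl (hp.trans_le (le_max_left _ _))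
        · exact Or.inr hp
      · intro p hp h5 h6
        by_cases h7 : p < K1
        · rw [hz.1 p (Or.inl h7)]
          exact hx.2 p hp h5 h6
        · exact hz.2 p (not_lt.1 h7) h5 (by omega)

lemma fs (j : ℕ) : FS (lv j) := by
  intro k
  rcases Nat.eq_zero_or_pos k with rfl | hk
  · exact ⟨fun _ => univ, fun _ => isClosed_univ, by ext x; simp⟩
  by_cases hkj : k ≤ j + 1
  · set Y : ℕ → Set (ℕ → Fin 3) := fun K =>
      {x | ∀ p, K ≤ p → 2 ≤ col p → col p ≤ k → x p = 1} with hY
    have hYc : ∀ K, IsClosed (Y K) := by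
      intro K
      have h : ∀ (p : ℕ) (t : Fin 3), IsClosed {x : ℕ → Fin 3 | x p = t} := fun p t =>
        isClosed_eq (continuous_apply p) continuous_const
      have e : Y K = ⋂ p : ℕ, ⋂ _ : K ≤ p, ⋂ _ : 2 ≤ col p, ⋂ _ : col p ≤ k,
          {x : ℕ → Fin 3 | x p = 1} := by
        ext x
        simp only [hY, mem_iInter, mem_setOf_eq]
      rw [e]
      exact isClosed_iInter fun p => isClosed_iInter fun _ => isClosed_iInter fun _ =>
        isClosed_iInter fun _ => h p _
    refine ⟨fun K => c '' Y K, fun K => ((hYc K).isCompact.image c_cont).isClosed, ?_⟩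
    ext y
    simp only [mem_iUnion, mem_setOf_eq]
    constructor
    · rintro ⟨K, x, hx, rfl⟩
      rw [lv_c, le_L hkj]
      exact ⟨K, hx⟩
    · intro hy
      by_cases hyC : y ∈ range c
      · obtain ⟨x, rfl⟩ := hyC
        rw [lv_c, le_L hkj] at hy
        obtain ⟨K, hK⟩ := hy
        exact ⟨K, x, hK, rfl⟩
      · rw [lv_out j hyC] at hy
        omega
  · refine ⟨fun _ => ∅, fun _ => isClosed_empty, ?_⟩
    ext y
    simp only [mem_iUnion, mem_empty_iff_false, exists_false, mem_setOf_eq, false_iff, not_le]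
    have : lv j y ≤ j + 1 := by
      by_cases hyC : y ∈ range c
      · obtain ⟨x, rfl⟩ := hyC
        rw [lv_c]
        exact L_le j x
      · rw [lv_out j hyC]
        omega
    omega

open Classical in
/-- the sequence of a set of natural numbers -/
noncomputable def ww (S : Set ℕ) (p : ℕ) : Fin 3 :=
  if col p = 0 ∧ (Nat.unpair p).2 ∈ S then 1 else 0

lemma ww_inj {S T : Set ℕ} {x : ℕ → Fin 3} (h1 : x ∈ Z 1 (ww S) 0) (h2 : x ∈ Z 1 (ww T) 0) :
    S = T := by
  classical
  ext m
  have hc : col (Nat.pair 0 m) = 0 := by simp [col]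
  have h3 := h1.1 (Nat.pair 0 m) (Or.inr hc)
  have h4 := h2.1 (Nat.pair 0 m) (Or.inr hc)
  rw [h3] at h4
  unfold ww at h4
  simp only [hc, Nat.unpair_pair, true_and] at h4
  by_cases hS : m ∈ S <;> by_cases hT : m ∈ T <;> simp_all

theorem t_Ta : S_Ta := by
  classical
  intro j
  refine ⟨range c, lv j, isCompact_range c_cont, ?_, ?_, ?_, fun x hx => lv_out j hx, ?_, fs j,
    range fun S : Set ℕ => c '' Z 1 (ww S) 0, ?_, ?_, ?_⟩
  · rintro _ ⟨x, rfl⟩
    have h1 := c_nonneg x
    have h2 := c_le x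
    exact ⟨by linarith, by linarith⟩
  · by_contra hne
    obtain ⟨y, hy⟩ := nonempty_iff_ne_empty.2 hne
    rw [mem_interior_iff_mem_nhds, Metric.mem_nhds_iff] at hy
    obtain ⟨ε, hε, hb⟩ := hy
    have hpre : IsPreconnected (Metric.ball y ε) := (convex_ball y ε).isPreconnected
    have h1 := hpre.preimage_of_isClosedMap c_inj c_cont.isClosedMap hb
    have h2 := h1.subsingleton
    have hy1 : y ∈ Metric.ball y ε := Metric.mem_ball_self hε
    have hy2 : y + ε / 2 ∈ Metric.ball y ε := by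
      rw [Metric.mem_ball, Real.dist_eq, add_sub_cancel_left, abs_of_pos (by linarith)]
      linarith
    obtain ⟨x1, hx1⟩ := hb hy1
    obtain ⟨x2, hx2⟩ := hb hy2
    have h3 : x1 = x2 := h2 (show c x1 ∈ Metric.ball y ε by rw [hx1]; exact hy1)
      (show c x2 ∈ Metric.ball y ε by rw [hx2]; exact hy2)
    rw [h3, hx2] at hx1
    linarith
  · rintro _ ⟨x, rfl⟩
    rw [lv_c, le_L (by omega)]
    exact G_one x le_rfl
  · intro y
    by_cases hyC : y ∈ range c
    · obtain ⟨x, rfl⟩ := hyC
      rw [lv_c]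
      exact L_le j x
    · rw [lv_out j hyC]
      omega
  · intro hcount
    have hinj : Function.Injective (fun S : Set ℕ => c '' Z 1 (ww S) 0) := by
      intro S T hST
      have hST' : c '' Z 1 (ww S) 0 = c '' Z 1 (ww T) 0 := hST
      obtain ⟨_, x, hx, rfl⟩ := (core j 1 le_rfl (by omega) (ww S) 0).2.1
      have h1 : c x ∈ c '' Z 1 (ww T) 0 := hST' ▸ ⟨x, hx, rfl⟩
      obtain ⟨x', hx', hxx⟩ := h1
      rw [c_inj hxx] at hx'
      exact ww_inj hx hx'
    have hcs : Countable (Set ℕ) := by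
      have := hcount.to_subtype
      exact (Set.rangeFactorization_injective.2 hinj).countable
    obtain ⟨f, hf⟩ := exists_surjective_nat (Set ℕ)
    exact Function.cantor_surjective f hf
  · rintro _ ⟨S, rfl⟩ _ ⟨T, rfl⟩ hST
    refine disjoint_left.2 ?_
    rintro _ ⟨x, hx, rfl⟩ ⟨x', hx', hxx⟩
    rw [c_inj hxx] at hx'
    apply hST
    rw [ww_inj hx hx']
  · rintro _ ⟨S, rfl⟩
    refine ⟨image_subset_range _ _, ?_⟩
    exact piece j j 1 le_rfl (by omega) (ww S) 0

end Pool.Agent.Q91.MB.Ta
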